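import Pool.Agent.Helper70.BU.Goals

/-!
# Project TW, packet BUG: restriction to fewer variables
-/

namespace Pool.Agent.Helper15.BU

open MvPolynomial Pool.Agent.Helper70.BU

section

variable {ι κ : Type} [Fintype ι] [DecidableEq ι] [DecidableEq κ] (b : ι → κ) (s : κ → Finset ι)

/-- the selected variables -/
abbrev Sel : Type := {i : ι // i ∈ s (b i)}

/-- the selected variables of a block -/
theorem map_filter (hs : ∀ k, s k ⊆ Finset.univ.filter (fun i => b i = k)) (k : κ) :
    (Finset.univ.filter (fun i : Sel b s => b i.1 = k)).map (Function.Embedding.subtype _) = s k := by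
  ext i
  simp only [Finset.mem_map, Finset.mem_filter, Finset.mem_univ, true_and,
    Function.Embedding.coe_subtype]
  constructor
  · rintro ⟨j, hj, rfl⟩
    have := j.2
    rwa [hj] at this
  · intro hi
    have hb : b i = k := by simpa using hs k hi
    exact ⟨⟨i, by rw [hb]; exact hi⟩, hb, rfl⟩

theorem bn_eq (hs : ∀ k, s k ⊆ Finset.univ.filter (fun i => b i = k)) (k : κ) :
    bn (fun i : Sel b s => b i.1) k = (s k).card := by
  unfold bn
  rw [← map_filter b s hs k, Finset.card_map]

theorem sum_sel {A : Type} [AddCommMonoid A] (hs : ∀ k, s k ⊆ Finset.univ.filter (fun i => b i = k))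
    (g : ι → A) (hg : ∀ i, i ∉ s (b i) → g i = 0) (k : κ) :
    ∑ i with b i = k, g i = ∑ i : Sel b s with b i.1 = k, g i.1 := by
  have h1 : ∑ i ∈ s k, g i = ∑ i : Sel b s with b i.1 = k, g i.1 := by
    rw [← map_filter b s hs k, Finset.sum_map]
    rfl
  rw [← h1]
  refine (Finset.sum_subset (hs k) fun i hi hi' => ?_).symm
  have hb : b i = k := by simpa using hi
  exact hg i (by rw [hb]; exact hi')

/-- the inclusion of the selected variables -/
def inc : Sel b s ⊕ Sel b s → ι ⊕ ι := Sum.map Subtype.val Subtype.val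

theorem inc_inj : Function.Injective (inc b s) :=
  Function.Injective.sumMap Subtype.val_injective Subtype.val_injective

theorem wh_kill (hs : ∀ k, s k ⊆ Finset.univ.filter (fun i => b i = k)) {χ : κ → ℤ}
    {F : MvPolynomial (ι ⊕ ι) ℂ} (hF : Wh b χ F) :
    Wh (fun i : Sel b s => b i.1) χ (killCompl (inc_inj b s) F) := by
  intro d hd k
  rw [mem_support_iff, coeff_killCompl] at hd
  have h1 := hF _ (mem_support_iff.2 hd) k
  rw [← h1, sum_sel b s hs _ _ k]
  · refine Finset.sum_congr rfl fun i _ => ?_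
    have e1 : (d.mapDomain (inc b s)) (Sum.inl i.1) = d (Sum.inl i) :=
      Finsupp.mapDomain_apply (inc_inj b s) d (Sum.inl i)
    have e2 : (d.mapDomain (inc b s)) (Sum.inr i.1) = d (Sum.inr i) :=
      Finsupp.mapDomain_apply (inc_inj b s) d (Sum.inr i)
    rw [e1, e2]
  · intro i hi
    have e1 : (d.mapDomain (inc b s)) (Sum.inl i) = 0 := by
      refine Finsupp.mapDomain_notin_range _ _ ?_
      rintro ⟨j, hj⟩
      rcases j with j | j
      · simp only [inc, Sum.map_inl, Sum.inl.injEq] at hj
        exact hi (hj ▸ j.2)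
      · simp [inc] at hj
    have e2 : (d.mapDomain (inc b s)) (Sum.inr i) = 0 := by
      refine Finsupp.mapDomain_notin_range _ _ ?_
      rintro ⟨j, hj⟩
      rcases j with j | j
      · simp [inc] at hj
      · simp only [inc, Sum.map_inr, Sum.inr.injEq] at hj
        exact hi (hj ▸ j.2)
    rw [e1, e2]
    simp

/-- extension by zero -/
noncomputable def ext0 (z : Sel b s → ℂ) (i : ι) : ℂ :=
  if h : i ∈ s (b i) then z ⟨i, h⟩ else 0

theorem ext0_sel (z : Sel b s → ℂ) (i : Sel b s) : ext0 b s z i.1 = z i := by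
  unfold ext0
  rw [dif_pos i.2]

theorem evc_kill (z : Sel b s → ℂ) (F : MvPolynomial (ι ⊕ ι) ℂ) :
    evc (killCompl (inc_inj b s) F) z = evc F (ext0 b s z) := by
  unfold evc
  induction F using MvPolynomial.induction_on with
  | C a => rw [killCompl_C, eval_C, eval_C]
  | add p q hp hq => rw [map_add, map_add, map_add, hp, hq]
  | mul_X p t hp =>
    rw [map_mul, map_mul, map_mul, hp, eval_X]
    congr 1
    by_cases ht : t ∈ Set.range (inc b s)
    · obtain ⟨j, rfl⟩ := ht
      have e1 : killCompl (inc_inj b s) (X (inc b s j) : MvPolynomial (ι ⊕ ι) ℂ) = X j := by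
        have := killCompl_rename_app (R := ℂ) (inc_inj b s) (X j)
        rwa [rename_X] at this
      rw [e1, eval_X]
      rcases j with j | j
      · simp [inc, ext0_sel]
      · simp [inc, ext0_sel]
    · have e1 : killCompl (inc_inj b s) (X t : MvPolynomial (ι ⊕ ι) ℂ) = 0 := by
        rw [killCompl, aeval_X, dif_neg ht]
      rw [e1, map_zero]
      rcases t with i | i
      · have hi : i ∉ s (b i) := fun hi => ht ⟨Sum.inl ⟨i, hi⟩, rfl⟩
        simp [ext0, hi]
      · have hi : i ∉ s (b i) := fun hi => ht ⟨Sum.inr ⟨i, hi⟩, rfl⟩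
        simp [ext0, hi]

end

theorem bug : BUT → BUG := by
  intro hBUT ι κ Λ _ _ _ _ _ b χ F e he hsum hWh hcoeff
  have h1 : ∀ k, ∃ t ⊆ Finset.univ.filter (fun i => b i = k), t.card = e k + 1 := fun k =>
    Finset.exists_subset_card_eq (he k)
  choose s hs hcard using h1
  have hbn : ∀ k, bn (fun i : Sel b s => b i.1) k = e k + 1 := fun k => by
    rw [bn_eq b s hs k, hcard k]
  have hbn' : (fun k => bn (fun i : Sel b s => b i.1) k - 1) = e := by
    funext k
    rw [hbn k]
    rfl
  obtain ⟨z, hz, hz0⟩ := hBUT (Sel b s) κ Λ (fun i : Sel b s => b i.1) χ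
    (fun l => killCompl (inc_inj b s) (F l)) (fun k => by rw [hbn k]; omega)
    (by rw [← hsum]; exact Finset.sum_congr rfl fun k _ => by rw [hbn k]; rfl)
    (fun l => wh_kill b s hs (hWh l)) (by rw [hbn']; exact hcoeff)
  refine ⟨ext0 b s z, fun k => ?_, fun l => ?_⟩
  · rw [sum_sel b s hs (fun i => ‖ext0 b s z i‖ ^ 2) (fun i hi => by simp [ext0, hi]) k, ← hz k]
    refine Finset.sum_congr rfl fun i _ => ?_
    rw [ext0_sel]
  · rw [← evc_kill]
    exact hz0 l

end Pool.Agent.Helper15.BU
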